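import Mathlib
import Pool.Agent.Helper4.QN.Defs

/-!
# QN-1: minimiser of `log det gm - 2 log det A` for a fixed list (MP_882a21_co, captain helper4)
-/

set_option autoImplicit false

namespace Pool.Agent.Helper33.QN

open scoped BigOperators RealInnerProductSpace Topology
open Filter Pool.Agent.Helper4.QN

private theorem gm_quad {d n : ℕ} (w : Fin n → ℝ) (v : Fin n → EuclideanSpace ℝ (Fin d))
    (x : EuclideanSpace ℝ (Fin d)) :
    dotProduct x.ofLp ((gm w v).mulVec x.ofLp) = ∑ j, w j * ⟪v j, x⟫ ^ 2 := by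
  unfold gm
  rw [Matrix.sum_mulVec, dotProduct_sum]
  refine Finset.sum_congr rfl fun j _ => ?_
  rw [Matrix.smul_mulVec, Matrix.vecMulVec_mulVec]
  have h : ⟪v j, x⟫ = dotProduct (v j).ofLp x.ofLp := by
    rw [PiLp.inner_apply]
    simp only [dotProduct, RCLike.inner_apply, conj_trivial]
    exact Finset.sum_congr rfl fun i _ => mul_comm _ _
  rw [h]
  simp only [dotProduct_smul, smul_eq_mul, MulOpposite.smul_eq_mul_unop, MulOpposite.unop_op]
  rw [dotProduct_comm x.ofLp (v j).ofLp]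
  ring

private theorem gm_herm {d n : ℕ} (w : Fin n → ℝ) (v : Fin n → EuclideanSpace ℝ (Fin d)) :
    (gm w v).IsHermitian := by
  unfold gm
  rw [Matrix.IsHermitian, Matrix.conjTranspose_sum]
  refine Finset.sum_congr rfl fun j _ => ?_
  ext i k
  simp [Matrix.vecMulVec_apply, mul_comm]

private theorem gm_lower {d n : ℕ} (v : Fin n → EuclideanSpace ℝ (Fin d))
    (hM : 0 < (gm (fun _ => 1) v).det) :
    ∃ lam : ℝ, 0 < lam ∧ ∀ x : EuclideanSpace ℝ (Fin d), ‖x‖ = 1 → lam ≤ ∑ j, ⟪v j, x⟫ ^ 2 := by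
  by_cases hne : (Metric.sphere (0 : EuclideanSpace ℝ (Fin d)) 1).Nonempty
  · obtain ⟨x, hx, hmin⟩ := (isCompact_sphere (0 : EuclideanSpace ℝ (Fin d)) 1).exists_isMinOn hne
      (f := fun x => ∑ j, ⟪v j, x⟫ ^ 2) (by fun_prop)
    have hx1 : ‖x‖ = 1 := by simpa using hx
    refine ⟨∑ j, ⟪v j, x⟫ ^ 2, ?_, fun y hy => hmin (by simpa using hy)⟩
    refine lt_of_le_of_ne (Finset.sum_nonneg fun j _ => sq_nonneg _) fun h => ?_
    have h0 : ∀ j, ⟪v j, x⟫ = 0 := by
      intro j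
      have h1 := (Finset.sum_eq_zero_iff_of_nonneg (fun j _ => sq_nonneg ⟪v j, x⟫)).1 h.symm j
        (Finset.mem_univ j)
      exact pow_eq_zero_iff (two_ne_zero) |>.1 h1
    have h2 : (gm (fun _ => 1) v).mulVec x.ofLp = 0 := by
      unfold gm
      rw [Matrix.sum_mulVec]
      refine Finset.sum_eq_zero fun j _ => ?_
      have h : dotProduct (v j).ofLp x.ofLp = 0 := by
        rw [← h0 j, PiLp.inner_apply]
        simp only [dotProduct, RCLike.inner_apply, conj_trivial]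
        exact Finset.sum_congr rfl fun i _ => mul_comm _ _
      rw [Matrix.smul_mulVec, Matrix.vecMulVec_mulVec, h]
      simp
    have h3 : x.ofLp ≠ 0 := by
      intro h4
      have : x = 0 := by
        ext i
        exact congrFun h4 i
      rw [this, norm_zero] at hx1
      exact zero_ne_one hx1
    exact hM.ne' (Matrix.exists_mulVec_eq_zero_iff.1 ⟨x.ofLp, h3, h2⟩)
  · refine ⟨1, one_pos, fun x hx => absurd ⟨x, by simpa using hx⟩ hne⟩

/-- lower bound for the determinant of a weighted Gram matrix. -/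
private theorem det_lower {d n : ℕ} (v : Fin n → EuclideanSpace ℝ (Fin d)) (lam : ℝ)
    (hlam : 0 < lam) (hl : ∀ x : EuclideanSpace ℝ (Fin d), ‖x‖ = 1 → lam ≤ ∑ j, ⟪v j, x⟫ ^ 2)
    (β : ℝ) (hβ : 0 < β) (w : Fin n → ℝ) (hw : ∀ j, β ≤ w j) :
    (β * lam) ^ d ≤ (gm w v).det := by
  have hH := gm_herm w v
  rw [hH.det_eq_prod_eigenvalues]
  have h1 : ∀ i, β * lam ≤ hH.eigenvalues i := by
    intro i
    have h2 : hH.eigenvalues i = dotProduct (hH.eigenvectorBasis i).ofLp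
        ((gm w v).mulVec (hH.eigenvectorBasis i).ofLp) := by
      rw [hH.eigenvalues_eq]
      simp
    rw [h2, gm_quad]
    have h3 : ‖hH.eigenvectorBasis i‖ = 1 := hH.eigenvectorBasis.orthonormal.1 i
    calc β * lam ≤ β * ∑ j, ⟪v j, hH.eigenvectorBasis i⟫ ^ 2 := by
          gcongr
          exact hl _ h3
      _ = ∑ j, β * ⟪v j, hH.eigenvectorBasis i⟫ ^ 2 := Finset.mul_sum _ _ _
      _ ≤ _ := Finset.sum_le_sum fun j _ => by
          have := hw j
          gcongr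
  calc (β * lam) ^ d = ∏ _i : Fin d, (β * lam) := by simp
    _ ≤ ∏ i, hH.eigenvalues i := Finset.prod_le_prod (fun i _ => by positivity) fun i _ => h1 i
    _ = _ := by simp

theorem exists_min {d n : ℕ} {I : Type} [Fintype I]
    (a : I → EuclideanSpace ℝ (Fin d)) (b : I → ℝ) (R : ℝ)
    (hbdd : ∀ x : EuclideanSpace ℝ (Fin d), (∀ i, ⟪a i, x⟫ ≤ b i) → ‖x‖ ≤ R)
    (x₀ : EuclideanSpace ℝ (Fin d)) (hint : ∀ i, ⟪a i, x₀⟫ < b i) (t : Fin n → I)
    (ht : 0 < (gm (fun _ => 1) (fun j => a (t j))).det) :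
    ∃ (o : EuclideanSpace ℝ (Fin d))
      (A : EuclideanSpace ℝ (Fin d) →L[ℝ] EuclideanSpace ℝ (Fin d)),
      (∀ i, ⟪a i, o⟫ + ‖A (a i)‖ ≤ b i) ∧ (∀ i, ⟪a i, o⟫ < b i) ∧ 0 < A.det ∧
      ∀ (o' : EuclideanSpace ℝ (Fin d))
        (A' : EuclideanSpace ℝ (Fin d) →L[ℝ] EuclideanSpace ℝ (Fin d)),
        (∀ i, ⟪a i, o'⟫ + ‖A' (a i)‖ ≤ b i) → 0 < A'.det →
        Real.log (gm (fun j => ((b (t j) - ⟪a (t j), o⟫) ^ 2)⁻¹) (fun j => a (t j))).det -
            2 * Real.log A.det ≤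
          Real.log (gm (fun j => ((b (t j) - ⟪a (t j), o'⟫) ^ 2)⁻¹) (fun j => a (t j))).det -
            2 * Real.log A'.det := by
  set C : Set (EuclideanSpace ℝ (Fin d) × (EuclideanSpace ℝ (Fin d) →L[ℝ] EuclideanSpace ℝ (Fin d))) :=
    {p | ∀ i, ⟪a i, p.1⟫ + ‖p.2 (a i)‖ ≤ b i} with hC
  have hclosed : IsClosed C := by
    rw [hC, Set.ofPred_forall]
    refine isClosed_iInter fun i => isClosed_le ?_ continuous_const
    have h1 : Continuous fun p : EuclideanSpace ℝ (Fin d) ×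
        (EuclideanSpace ℝ (Fin d) →L[ℝ] EuclideanSpace ℝ (Fin d)) => p.2 (a i) :=
      continuous_snd.clm_apply continuous_const
    fun_prop
  have hR : 0 ≤ R := (norm_nonneg x₀).trans (hbdd x₀ fun i => (hint i).le)
  have hmem : ∀ p ∈ C, ∀ ξ : EuclideanSpace ℝ (Fin d), ‖ξ‖ ≤ 1 →
      ‖p.1 + ContinuousLinearMap.adjoint p.2 ξ‖ ≤ R := by
    intro p hp ξ hξ
    apply hbdd
    intro i
    have h1 := hp i
    rw [inner_add_right, ContinuousLinearMap.adjoint_inner_right]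
    have h2 : ⟪p.2 (a i), ξ⟫ ≤ ‖p.2 (a i)‖ * ‖ξ‖ := real_inner_le_norm _ _
    have h3 : ‖p.2 (a i)‖ * ‖ξ‖ ≤ ‖p.2 (a i)‖ := by
      nlinarith [norm_nonneg (p.2 (a i))]
    linarith
  have hpR : ∀ p ∈ C, ‖p.1‖ ≤ R := by
    intro p hp
    have := hmem p hp 0 (by simp)
    simpa using this
  have hb : Bornology.IsBounded C := by
    rw [isBounded_iff_forall_norm_le]
    refine ⟨2 * R, fun p hp => ?_⟩
    have h1 : ‖p.1‖ ≤ R := hpR p hp
    have h2 : ‖p.2‖ ≤ 2 * R := by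
      rw [← LinearIsometryEquiv.norm_map ContinuousLinearMap.adjoint p.2]
      refine ContinuousLinearMap.opNorm_le_of_unit_norm (by linarith) fun ξ hξ => ?_
      have h3 := hmem p hp ξ hξ.le
      have h4 : ContinuousLinearMap.adjoint p.2 ξ =
          (p.1 + ContinuousLinearMap.adjoint p.2 ξ) - p.1 := by abel
      rw [h4]
      refine (norm_sub_le _ _).trans ?_
      linarith
    rw [Prod.norm_def]
    exact max_le (by linarith) h2
  have hcomp : IsCompact C := Metric.isCompact_of_isClosed_isBounded hclosed hb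
  -- starting point
  obtain ⟨ε, hε, hεi⟩ : ∃ ε : ℝ, 0 < ε ∧ ∀ i, ε * ‖a i‖ ≤ b i - ⟪a i, x₀⟫ := by
    have h1 : ∀ᶠ ε in 𝓝[>] (0 : ℝ), ∀ i, ε * ‖a i‖ ≤ b i - ⟪a i, x₀⟫ := by
      rw [Filter.eventually_all]
      intro i
      have h2 : Tendsto (fun ε : ℝ => ε * ‖a i‖) (𝓝 0) (𝓝 (0 * ‖a i‖)) :=
        (continuous_id.mul continuous_const).tendsto 0
      rw [zero_mul] at h2
      have h3 := h2.eventually (gt_mem_nhds (sub_pos.2 (hint i)))
      filter_upwards [nhdsWithin_le_nhds h3] with ε h using le_of_lt h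
    obtain ⟨ε, h2, h3⟩ := (h1.and self_mem_nhdsWithin).exists
    exact ⟨ε, h3, h2⟩
  obtain ⟨A₀, hA₀⟩ : ∃ A₀ : EuclideanSpace ℝ (Fin d) →L[ℝ] EuclideanSpace ℝ (Fin d),
      A₀ = ε • ContinuousLinearMap.id ℝ (EuclideanSpace ℝ (Fin d)) := ⟨_, rfl⟩
  have hst : (x₀, A₀) ∈ C := by
    intro i
    have : ‖ε • a i‖ = ε * ‖a i‖ := by
      rw [norm_smul, Real.norm_of_nonneg hε.le]
    have h := hεi i
    rw [hA₀]
    simp only [_root_.smul_apply, ContinuousLinearMap.id_apply]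
    rw [this]
    linarith
  have hdet₀ : 0 < A₀.det := by
    have h2 : A₀.det = ε ^ d := by
      rw [hA₀, ContinuousLinearMap.det]
      have : ((ε • ContinuousLinearMap.id ℝ (EuclideanSpace ℝ (Fin d)) :
          EuclideanSpace ℝ (Fin d) →L[ℝ] EuclideanSpace ℝ (Fin d)) :
          EuclideanSpace ℝ (Fin d) →ₗ[ℝ] EuclideanSpace ℝ (Fin d)) = ε • LinearMap.id := rfl
      rw [this, LinearMap.det_smul, LinearMap.det_id, mul_one, finrank_euclideanSpace_fin]
    rw [h2]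
    positivity
  -- slacks are positive where the determinant is
  have hs : ∀ p ∈ C, 0 < p.2.det → ∀ i, 0 < b i - ⟪a i, p.1⟫ := by
    intro p hp hdet i
    have hinj : Function.Injective p.2 := by
      have h1 : IsUnit (LinearMap.det
          (p.2 : EuclideanSpace ℝ (Fin d) →ₗ[ℝ] EuclideanSpace ℝ (Fin d))) :=
        isUnit_iff_ne_zero.2 hdet.ne'
      have h2 : Function.Bijective (LinearEquiv.ofIsUnitDet
          (v := (EuclideanSpace.basisFun (Fin d) ℝ).toBasis)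
          (v' := (EuclideanSpace.basisFun (Fin d) ℝ).toBasis)
          (f := (p.2 : EuclideanSpace ℝ (Fin d) →ₗ[ℝ] EuclideanSpace ℝ (Fin d)))
          (by rw [LinearMap.det_toMatrix]; exact h1)) := LinearEquiv.bijective _
      exact h2.1
    by_cases h0 : a i = 0
    · have h2 := hint i
      rw [h0, inner_zero_left] at h2 ⊢
      linarith
    · have h1 : 0 < ‖p.2 (a i)‖ := by
        rw [norm_pos_iff]
        intro h1
        exact h0 (hinj (by rw [h1, map_zero]))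
      have := hp i
      linarith
  -- bound for the slacks
  obtain ⟨B, hB0, hB⟩ : ∃ B : ℝ, 0 < B ∧ ∀ p ∈ C, ∀ i, b i - ⟪a i, p.1⟫ ≤ B := by
    refine ⟨(∑ i, (|b i| + ‖a i‖ * R)) + 1, ?_, fun p hp i => ?_⟩
    · have : 0 ≤ ∑ i, (|b i| + ‖a i‖ * R) := Finset.sum_nonneg fun i _ => by positivity
      linarith
    · have h1 : |b i| + ‖a i‖ * R ≤ ∑ i, (|b i| + ‖a i‖ * R) :=
        Finset.single_le_sum (f := fun i => |b i| + ‖a i‖ * R) (fun i _ => by positivity)
          (Finset.mem_univ i)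
      have h2 : -⟪a i, p.1⟫ ≤ ‖a i‖ * R := by
        have h3 := abs_real_inner_le_norm (a i) p.1
        have h4 : ‖a i‖ * ‖p.1‖ ≤ ‖a i‖ * R := by
          have := hpR p hp
          gcongr
        linarith [neg_abs_le ⟪a i, p.1⟫]
      linarith [le_abs_self (b i)]
  obtain ⟨lam, hlam, hl⟩ := gm_lower (fun j => a (t j)) ht
  obtain ⟨κ, hκ⟩ : ∃ κ : ℝ, κ = ((B ^ 2)⁻¹ * lam) ^ d := ⟨_, rfl⟩
  have hκ0 : 0 < κ := by rw [hκ]; positivity
  have hdetg : ∀ p ∈ C, 0 < p.2.det →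
      κ ≤ (gm (fun j => ((b (t j) - ⟪a (t j), p.1⟫) ^ 2)⁻¹) (fun j => a (t j))).det := by
    intro p hp hdet
    rw [hκ]
    refine det_lower _ lam hlam hl _ (by positivity) _ fun j => ?_
    have h1 := hs p hp hdet (t j)
    have h2 := hB p hp (t j)
    gcongr
  obtain ⟨V, hV⟩ : ∃ V : (EuclideanSpace ℝ (Fin d) ×
      (EuclideanSpace ℝ (Fin d) →L[ℝ] EuclideanSpace ℝ (Fin d))) → ℝ, V = fun p =>
        Real.log (gm (fun j => ((b (t j) - ⟪a (t j), p.1⟫) ^ 2)⁻¹) (fun j => a (t j))).det -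
            2 * Real.log p.2.det := ⟨_, rfl⟩
  have hVp : ∀ p, V p = Real.log (gm (fun j => ((b (t j) - ⟪a (t j), p.1⟫) ^ 2)⁻¹)
      (fun j => a (t j))).det - 2 * Real.log p.2.det := fun p => by rw [hV]
  obtain ⟨δ, hδ⟩ : ∃ δ : ℝ, δ = min A₀.det (Real.exp ((Real.log κ - V (x₀, A₀)) / 2)) := ⟨_, rfl⟩
  have hδ0 : 0 < δ := by rw [hδ]; exact lt_min hdet₀ (Real.exp_pos _)
  have hdc : Continuous fun p : EuclideanSpace ℝ (Fin d) ×
      (EuclideanSpace ℝ (Fin d) →L[ℝ] EuclideanSpace ℝ (Fin d)) => p.2.det :=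
    ContinuousLinearMap.continuous_det.comp continuous_snd
  have hKc : IsCompact (C ∩ {p | δ ≤ p.2.det}) :=
    hcomp.inter_right (isClosed_le continuous_const hdc)
  have hst' : (x₀, A₀) ∈ C ∩ {p | δ ≤ p.2.det} :=
    ⟨hst, show δ ≤ A₀.det by rw [hδ]; exact min_le_left _ _⟩
  have hcont : ContinuousOn V (C ∩ {p | δ ≤ p.2.det}) := by
    rw [hV]
    refine ContinuousOn.sub ?_ ?_
    · refine ContinuousOn.log ?_ ?_
      · have h1 : ContinuousOn (fun p : EuclideanSpace ℝ (Fin d) ×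
            (EuclideanSpace ℝ (Fin d) →L[ℝ] EuclideanSpace ℝ (Fin d)) =>
            gm (fun j => ((b (t j) - ⟪a (t j), p.1⟫) ^ 2)⁻¹) (fun j => a (t j)))
            (C ∩ {p | δ ≤ p.2.det}) := by
          unfold gm
          refine continuousOn_finsetSum _ fun j _ => ?_
          have h3 : ContinuousOn (fun p : EuclideanSpace ℝ (Fin d) ×
            (EuclideanSpace ℝ (Fin d) →L[ℝ] EuclideanSpace ℝ (Fin d)) =>
            ((b (t j) - ⟪a (t j), p.1⟫) ^ 2)⁻¹) (C ∩ {p | δ ≤ p.2.det}) := by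
            refine ContinuousOn.inv₀ (by fun_prop) ?_
            rintro p ⟨hp, hp2⟩
            have h2 := hs p hp (hδ0.trans_le hp2) (t j)
            positivity
          exact h3.smul continuousOn_const
        have h2 : Continuous fun M : Matrix (Fin d) (Fin d) ℝ => M.det :=
          Continuous.matrix_det continuous_id
        exact h2.comp_continuousOn h1
      · rintro p ⟨hp, hp2⟩
        exact (hκ0.trans_le (hdetg p hp (hδ0.trans_le hp2))).ne'
    · refine ContinuousOn.mul continuousOn_const ?_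
      refine ContinuousOn.log hdc.continuousOn ?_
      rintro p ⟨hp, hp2⟩
      exact (hδ0.trans_le hp2).ne'
  obtain ⟨p, hp, hmin⟩ := hKc.exists_isMinOn ⟨_, hst'⟩ hcont
  have hpd : 0 < p.2.det := hδ0.trans_le hp.2
  refine ⟨p.1, p.2, hp.1, fun i => sub_pos.1 (hs p hp.1 hpd i), hpd, ?_⟩
  intro o' A' hfe hdet'
  rw [← hVp p]
  have h1 := hVp (o', A')
  simp only at h1
  rw [← h1]
  by_cases hc : δ ≤ A'.det
  · exact hmin (show (o', A') ∈ C ∩ {p | δ ≤ p.2.det} from ⟨hfe, hc⟩)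
  · have h2 : V p ≤ V (x₀, A₀) := hmin hst'
    refine h2.trans ?_
    have h3 : A'.det ≤ Real.exp ((Real.log κ - V (x₀, A₀)) / 2) := by
      refine (not_le.1 hc).le.trans ?_
      rw [hδ]
      exact min_le_right _ _
    have h4 : Real.log A'.det ≤ (Real.log κ - V (x₀, A₀)) / 2 := by
      rw [← Real.log_exp ((Real.log κ - V (x₀, A₀)) / 2)]
      exact Real.log_le_log hdet' h3
    have h5 : Real.log κ ≤ Real.log (gm (fun j => ((b (t j) - ⟪a (t j), o'⟫) ^ 2)⁻¹)
        (fun j => a (t j))).det := Real.log_le_log hκ0 (hdetg (o', A') hfe hdet')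
    rw [h1]
    linarith

end Pool.Agent.Helper33.QN
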